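import Pool.Agent.Helper56.AST.Tower
import Pool.Agent.Helper56.AST.Coker

set_option autoImplicit false

namespace Pool.Agent.Results.MP_22cb07_al.AdditiveTowers

open Pool.Agent.Helper56.AST

/-- Let `K` be an infinite field of characteristic `p > 0` whose absolute Galois group is
topologically finitely generated. Let `A_0, .., A_(m-1)` be separable additive polynomials over
`K` and let `f_j` be a polynomial over `K` in `x_1, .., x_n, y_0, .., y_(j-1)`. If the tower of
additive covers `A_j(y_j) = f_j(x_1, .., x_n, y_0, .., y_(j-1))`, `j < m`, of affine `n`-space has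
a `K`-rational point, then the points of `K^n` which lift to a `K`-rational point of the tower are
Zariski dense. -/
theorem result {K : Type*} [Field K] [Infinite K] (p : ℕ) [Fact p.Prime] [CharP K p]
    (hK : ∃ S : Set (Field.absoluteGaloisGroup K), S.Finite ∧
      closure ((Subgroup.closure S : Subgroup (Field.absoluteGaloisGroup K)) :
        Set (Field.absoluteGaloisGroup K)) = Set.univ)
    (n m : ℕ) (A : ℕ → Polynomial K)
    (hA : ∀ j < m, (∀ u v : K, (A j).eval (u + v) = (A j).eval u + (A j).eval v) ∧
      (A j).coeff 1 ≠ 0)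
    (f : (j : ℕ) → MvPolynomial (Fin n ⊕ Fin j) K)
    (a : Fin n → K) (b : ℕ → K)
    (hab : ∀ j < m, (A j).eval (b j) =
      MvPolynomial.eval (Sum.elim a (fun i : Fin j => b i)) (f j))
    (F : MvPolynomial (Fin n) K) (hF : F ≠ 0) :
    ∃ (x : Fin n → K) (y : ℕ → K),
      (∀ j < m, (A j).eval (y j) =
        MvPolynomial.eval (Sum.elim x (fun i : Fin j => y i)) (f j)) ∧
      MvPolynomial.eval x F ≠ 0 := by
  classical
  let _ : Algebra (ZMod p) K := ZMod.algebra K p
  have hfix := fixFG_self hK
  let B : ℕ → K →+ K := fun j => if hj : j < m then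
    { toFun := fun u => (A j).eval u
      map_zero' := by
        have := (hA j hj).1 0 0
        rw [add_zero] at this
        exact left_eq_add.1 this
      map_add' := (hA j hj).1 } else 0
  have hB : ∀ j < m, ∀ u, B j u = (A j).eval u := by
    intro j hj u
    change (dite _ _ _ : K →+ K) u = _
    rw [dif_pos hj]
    rfl
  obtain ⟨x, y, hxy, hx⟩ := dense_of_finite_coker p B f a b m (fun j hj => by
    obtain ⟨q, e, he⟩ := exists_reps hfix (A j) (hA j hj).1 (hA j hj).2
    refine ⟨q, e, fun c => ?_⟩
    obtain ⟨k, d, h⟩ := he c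
    exact ⟨k, d, by rw [hB j hj, h]⟩) (fun j hj => by rw [hB j hj, hab j hj]) F hF
  exact ⟨x, y, fun j hj => by rw [← hB j hj, hxy j hj], hx⟩

end Pool.Agent.Results.MP_22cb07_al.AdditiveTowers
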