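import Pool.Agent.Helper51.EC2.CharNeTwo
import Pool.Agent.Helper51.EC2.CharTwo

set_option autoImplicit false

namespace Pool.Agent.Results.MP_22cb07_al.EllipticCurves

open Pool.Agent.Helper51.EC2

/-- Let `K` be an infinite field, of any characteristic, whose absolute Galois group is
topologically finitely generated. Then every elliptic curve over `K` (a Weierstrass equation over
`K` with invertible discriminant) has infinitely many `K`-rational points. -/
theorem result {K : Type*} [Field K] [Infinite K]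
    (hK : ∃ S : Set (Field.absoluteGaloisGroup K), S.Finite ∧
      closure ((Subgroup.closure S : Subgroup (Field.absoluteGaloisGroup K)) :
        Set (Field.absoluteGaloisGroup K)) = Set.univ)
    (W : WeierstrassCurve K) [W.IsElliptic] :
    Infinite W.toAffine.Point := by
  classical
  have hinf : {R : K × K | R.2 ^ 2 + W.a₁ * R.1 * R.2 + W.a₃ * R.2 =
      R.1 ^ 3 + W.a₂ * R.1 ^ 2 + W.a₄ * R.1 + W.a₆}.Infinite := by
    by_cases h2 : (2 : K) = 0
    · have hchar : CharP K 2 := CharTwo.of_one_ne_zero_of_two_eq_zero one_ne_zero h2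
      refine infinite_of_charTwo W ?_ hK
      by_contra hcon
      push Not at hcon
      obtain ⟨h1, h3⟩ := hcon
      have hΔ : W.Δ = 0 := by
        rw [WeierstrassCurve.Δ, WeierstrassCurve.b₂, WeierstrassCurve.b₄, WeierstrassCurve.b₆,
          WeierstrassCurve.b₈, h1, h3]
        linear_combination (-8 * W.a₂ ^ 2 * (4 * W.a₂ * W.a₆ - W.a₄ ^ 2) - 32 * W.a₄ ^ 3 -
          216 * W.a₆ ^ 2 + 144 * W.a₂ * W.a₄ * W.a₆) * h2
      exact W.isUnit_Δ.ne_zero hΔ
    · exact infinite_of_charNeTwo W h2 hK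
  have : Infinite {R : K × K | R.2 ^ 2 + W.a₁ * R.1 * R.2 + W.a₃ * R.2 =
      R.1 ^ 3 + W.a₂ * R.1 ^ 2 + W.a₄ * R.1 + W.a₆} := hinf.to_subtype
  refine Infinite.of_injective (fun R : {R : K × K | R.2 ^ 2 + W.a₁ * R.1 * R.2 + W.a₃ * R.2 =
      R.1 ^ 3 + W.a₂ * R.1 ^ 2 + W.a₄ * R.1 + W.a₆} =>
    WeierstrassCurve.Affine.Point.some (W' := W.toAffine) R.1.1 R.1.2
      (WeierstrassCurve.Affine.equation_iff_nonsingular.1
        ((WeierstrassCurve.Affine.equation_iff _ _).2 R.2))) ?_
  intro R R' h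
  simp only [WeierstrassCurve.Affine.Point.some.injEq] at h
  exact Subtype.ext (Prod.ext h.1 h.2)

end Pool.Agent.Results.MP_22cb07_al.EllipticCurves
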