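import Pool.Agent.Helper92.CRISP.Local

/-!
# Intersections of finitely many real closed or Henselian fields
-/

set_option autoImplicit false

namespace Pool.Agent.Results.MP_22cb07_al.IntersectionsOfLocalFields

open Polynomial

/-- `K` is ample, in the form for plane curves: a curve `f = 0` with a `K`-rational point at which
the derivative with respect to the second variable is not zero has infinitely many `K`-rational
points. -/
def IsAmple (K : Type*) [Field K] : Prop :=
  ∀ (f : K[X][X]) (a b : K), f.evalEval a b = 0 → (derivative f).evalEval a b ≠ 0 →
    {x : K | ∃ y : K, f.evalEval x y = 0}.Infinite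

/-- `F` is real closed, or Henselian with respect to a nontrivial valuation. -/
def IsLocal (F : Type*) [Field F] : Prop :=
  IsRealClosed F ∨ ∃ 𝒪 : ValuationSubring F, 𝒪 ≠ ⊤ ∧ HenselianLocalRing 𝒪

/-- The absolute Galois group of `N` is prosolvable or, more generally, for some `n₀` no separable
irreducible polynomial over `N` of degree `n ≥ n₀` has the alternating or the symmetric group of
degree `n` as its Galois group (a subgroup of the symmetric group contains the alternating group
if and only if its order is at least `n! / 2`). -/
def FewAlternating (N : Type*) [Field N] : Prop :=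
  (∀ q : N[X], q.Separable → Group.IsSolvable q.Gal) ∨
  ∃ n₀ : ℕ, ∀ q : N[X], Irreducible q → q.Separable → n₀ ≤ q.natDegree →
    2 * Nat.card q.Gal < q.natDegree.factorial

/-- Let `F i` be finitely many fields between `K` and its algebraic closure `Ω`, real closed or
Henselian. (1) If `K` is their intersection, `K` is ample. (2) If the finite Galois extensions of
`K` inside the intersection have a largest one `N`, of degree `p ^ k`, and the absolute Galois
group of `N` is prosolvable or has few alternating quotients, then `K` is ample. -/
theorem result {K Ω : Type*} [Field K] [Field Ω] [Algebra K Ω] [IsAlgClosure K Ω]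
    {ι : Type*} [Finite ι] [Nonempty ι] (F : ι → IntermediateField K Ω)
    (hF : ∀ i, IsLocal (F i)) :
    (⨅ i, F i = ⊥ → IsAmple K) ∧
    ∀ (N : IntermediateField K Ω) [FiniteDimensional K N] [IsGalois K N] (p k : ℕ),
      N ≤ ⨅ i, F i →
      (∀ E : IntermediateField K Ω, FiniteDimensional K E → IsGalois K E → E ≤ ⨅ i, F i → E ≤ N) →
      p.Prime → Module.finrank K N = p ^ k → FewAlternating N → IsAmple K := by
  refine ⟨fun hK f a b h0 h1 =>
    Pool.Agent.Helper92.CRISP.Local.of_iInf_eq_bot F hF hK f a b h0 h1, ?_⟩
  intro N _ _ p k hN hmax hp hpk hA f a b h0 h1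
  rcases hA with hA | hA
  · exact Pool.Agent.Helper92.CRISP.Local.of_solvable F hF N hN hmax p k hp hpk hA f a b h0 h1
  · exact Pool.Agent.Helper92.CRISP.Local.of_card_gal F hF N hN hmax p k hp hpk hA f a b h0 h1

end Pool.Agent.Results.MP_22cb07_al.IntersectionsOfLocalFields
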