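import Pool.Agent.Helper45.HJ.Final

set_option autoImplicit false

namespace Pool.Agent.Results.MP_22cb07_al.SuperellipticClassGroups

open Polynomial

/-- Let `K` be an infinite field whose absolute Galois group is topologically finitely generated,
`N ≥ 2` an integer not divisible by the characteristic of `K`, and `f` a separable polynomial over
`K` of degree `m` with `N < (N - 1) m` such that `X ^ d - c` is irreducible over `K`, where
`d = gcd(N, m)` and `c` is the leading coefficient of `f` (there is one place at infinity; no
condition if `d = 1`). Then `K[x, y]/(y ^ N - f(x))` is a domain with infinite ideal class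
group. -/
theorem result {K : Type*} [Field K] [Infinite K]
    (hK : ∃ S : Set (Field.absoluteGaloisGroup K), S.Finite ∧
      closure ((Subgroup.closure S : Subgroup (Field.absoluteGaloisGroup K)) :
        Set (Field.absoluteGaloisGroup K)) = Set.univ)
    (N : ℕ) (hN : 2 ≤ N) (hNK : (N : K) ≠ 0) (f : K[X]) (hf : f.Separable)
    (hgenus : N < (N - 1) * f.natDegree)
    (hplace : Irreducible (X ^ Nat.gcd N f.natDegree - C f.leadingCoeff : K[X])) :
    ∃ _ : IsDomain (AdjoinRoot (X ^ N - C f : K[X][X])),
      Infinite (ClassGroup (AdjoinRoot (X ^ N - C f : K[X][X]))) := by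
  have hd : 0 < f.natDegree := by
    rcases Nat.eq_zero_or_pos f.natDegree with h | h
    · rw [h, mul_zero] at hgenus
      omega
    · exact h
  have hdom : IsDomain (AdjoinRoot (X ^ N - C f : K[X][X])) :=
    Pool.Agent.Helper45.HJ.isDomain_Rg (by omega) hf hd
  exact ⟨hdom, Pool.Agent.Helper45.HJ.infinite_classGroup hK hN hNK hf hplace hgenus⟩

end Pool.Agent.Results.MP_22cb07_al.SuperellipticClassGroups
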